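import Pool.Agent.W54.ND.V2E
import Pool.Agent.Y229.CF.Stm
import Pool.Agent.H575R2.Farkas

set_option autoImplicit false

/-! Project CF of helper229, part V2EX: the algebraic relation from the extended functional
equation with the terms of the third kind (adaptation of `Pool.Agent.W54.ND.V2E`). -/

namespace Pool.Agent.Y497.CF

open MvPolynomial
open Pool.Agent.W425.ND
open Pool.Agent.H628R4.TZ (el dd eval_el eval_dd eval_paeval)
open Pool.Agent.W525.SM (Ex Ex_apply fq ff eval_fc eval_fc_zero mem_anti)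
open Pool.Agent.W425.SM (dm)
open Pool.Agent.W462.SG (ym ym_apply term_mono')
open Pool.Agent.W425.SV (Kil0 Kil1 RelV)
open Pool.Agent.W54.ND
open Pool.Agent.Y229.CF

variable {r N : ℕ}

/-- the set `D` is contained in a compact face exposed by a positive vector -/
def Alive (v : Fin r → Fin N → ℕ) (D : Finset (Fin r)) : Prop :=
  ∃ a : Fin N → ℝ, (∀ i, 0 < a i) ∧ (∀ j ∈ D, ∑ i, a i * (v j i : ℝ) = 1) ∧
    ∀ j, 1 ≤ ∑ i, a i * (v j i : ℝ)

/-- the alternative -/
def Dead (v : Fin r → Fin N → ℕ) (D : Finset (Fin r)) : Prop :=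
  ∃ g : Fin r → ℝ, (∀ j, j ∉ D → 0 ≤ g j) ∧ ∑ j, g j = 0 ∧
    (∀ i, ∑ j, g j * (v j i : ℝ) ≤ 0) ∧ ∃ i, ∑ j, g j * (v j i : ℝ) < 0

lemma pos_dot (v : Fin r → Fin N → ℕ) (hv : ∀ j, v j ≠ 0) (a : Fin N → ℝ) (ha : ∀ i, 0 < a i)
    (j : Fin r) : 0 < ∑ i, a i * (v j i : ℝ) := by
  obtain ⟨i, hi⟩ := Function.ne_iff.1 (hv j)
  refine Finset.sum_pos' (fun i _ => mul_nonneg (ha i).le (Nat.cast_nonneg _))
    ⟨i, Finset.mem_univ _, mul_pos (ha i) ?_⟩
  exact_mod_cast Nat.pos_of_ne_zero hi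

lemma alive_empty (v : Fin r → Fin N → ℕ) (hv : ∀ j, v j ≠ 0) : Alive v ∅ := by
  refine ⟨fun _ => 1, fun _ => one_pos, by simp, fun j => ?_⟩
  have h := pos_dot v hv (fun _ => 1) (fun _ => one_pos) j
  simp only [one_mul] at h ⊢
  have h2 : (0 : ℝ) < ((∑ i, v j i : ℕ) : ℝ) := by push_cast; exact h
  have h3 : 1 ≤ ∑ i, v j i := Nat.cast_pos.1 h2
  exact_mod_cast h3

/-- Motzkin's alternative -/
lemma alive_or_dead (v : Fin r → Fin N → ℕ) (hv : ∀ j, v j ≠ 0) (D : Finset (Fin r)) :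
    Alive v D ∨ Dead v D := by
  classical
  by_cases hD : Dead v D
  · exact Or.inr hD
  left
  rcases D.eq_empty_or_nonempty with rfl | ⟨j0, hj0⟩
  · exact alive_empty v hv
  let sg : (Fin r → ℝ) →ₗ[ℝ] ℝ := ∑ j, LinearMap.proj j
  have hsg : ∀ g, sg g = ∑ j, g j := by
    intro g
    simp [sg, LinearMap.sum_apply]
  let l1 : Fin N → ((Fin r → ℝ) →ₗ[ℝ] ℝ) := fun i => ∑ j, (v j i : ℝ) • LinearMap.proj j
  have hl1 : ∀ i g, l1 i g = ∑ j, g j * (v j i : ℝ) := by
    intro i g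
    simp [l1, LinearMap.sum_apply, mul_comm]
  let l2 : Fin r → ((Fin r → ℝ) →ₗ[ℝ] ℝ) := fun j => if j ∈ D then 0 else - LinearMap.proj j
  have hl2 : ∀ j g, l2 j g = if j ∈ D then 0 else - g j := by
    intro j g
    simp only [l2]
    split_ifs <;> simp
  let l3 : Fin 2 → ((Fin r → ℝ) →ₗ[ℝ] ℝ) := ![sg, -sg]
  obtain ⟨w, hw, hfw⟩ := H575R2.farkas_lin (N + r + 2) (Fin.append (Fin.append l1 l2) l3)
    (-∑ i, l1 i) (by
      intro g hg
      have h1 : ∀ i, ∑ j, g j * (v j i : ℝ) ≤ 0 := by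
        intro i
        have := hg (Fin.castAdd 2 (Fin.castAdd r i))
        rwa [Fin.append_left, Fin.append_left, hl1] at this
      have h2 : ∀ j, j ∉ D → 0 ≤ g j := by
        intro j hj
        have := hg (Fin.castAdd 2 (Fin.natAdd N j))
        rw [Fin.append_left, Fin.append_right, hl2, if_neg hj] at this
        linarith
      have h3 : ∑ j, g j = 0 := by
        have e1 := hg (Fin.natAdd (N + r) 0)
        have e2 := hg (Fin.natAdd (N + r) 1)
        rw [Fin.append_right] at e1 e2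
        have e3 : l3 0 g = ∑ j, g j := by
          show sg g = _
          exact hsg g
        have e4 : l3 1 g = - ∑ j, g j := by
          show (-sg) g = _
          rw [LinearMap.neg_apply, hsg]
        rw [e3] at e1
        rw [e4] at e2
        linarith
      have h4 : ∀ i, ∑ j, g j * (v j i : ℝ) = 0 := by
        intro i
        refine le_antisymm (h1 i) (le_of_not_gt fun h => hD ⟨g, h2, h3, h1, i, h⟩)
      rw [LinearMap.neg_apply, LinearMap.sum_apply, Finset.sum_congr rfl fun i _ => hl1 i g,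
        Finset.sum_congr rfl fun i _ => h4 i]
      simp)
  set b : Fin N → ℝ := fun i => w (Fin.castAdd 2 (Fin.castAdd r i)) with hb
  set p : Fin r → ℝ := fun j => w (Fin.castAdd 2 (Fin.natAdd N j)) with hp
  set τ : ℝ := w (Fin.natAdd (N + r) 1) - w (Fin.natAdd (N + r) 0) with hτ
  have key : ∀ j, ∑ i, (1 + b i) * (v j i : ℝ) = τ + if j ∈ D then 0 else p j := by
    intro j
    have h1 := hfw (Pi.single j 1)
    have e1 : ∀ i, l1 i (Pi.single j 1) = (v j i : ℝ) := by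
      intro i
      rw [hl1, Finset.sum_eq_single j] <;> simp +contextual
    have e2 : ∑ j', (Pi.single j 1 : Fin r → ℝ) j' = 1 := by simp
    have e3 : l3 0 (Pi.single j 1) = 1 := by
      show sg _ = _
      rw [hsg, e2]
    have e4 : l3 1 (Pi.single j 1) = -1 := by
      show (-sg) _ = _
      rw [LinearMap.neg_apply, hsg, e2]
    have e5 : ∑ j', p j' * l2 j' (Pi.single j 1) = - if j ∈ D then 0 else p j := by
      rw [Finset.sum_eq_single j]
      · rw [hl2]
        split_ifs <;> simp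
      · intro j' _ hne
        rw [hl2]
        split_ifs
        · simp
        · rw [Pi.single_eq_of_ne hne]
          simp
      · simp
    rw [Fin.sum_univ_add, Fin.sum_univ_add, Fin.sum_univ_two] at h1
    simp only [Fin.append_left, Fin.append_right] at h1
    rw [LinearMap.neg_apply, LinearMap.sum_apply, Finset.sum_congr rfl fun i _ => e1 i,
      e3, e4] at h1
    have e6 : ∑ i, b i * (v j i : ℝ) = ∑ i, w (Fin.castAdd 2 (Fin.castAdd r i)) *
        (l1 i) (Pi.single j 1) :=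
      Finset.sum_congr rfl fun i _ => by rw [e1 i]
    simp only [add_mul, one_mul]
    rw [Finset.sum_add_distrib, e6]
    have e7 : ∑ j', w (Fin.castAdd 2 (Fin.natAdd N j')) * l2 j' (Pi.single j 1) =
      - if j ∈ D then 0 else p j := e5
    rw [e7] at h1
    simp only [hτ]
    linarith
  have ha : ∀ i, 0 < 1 + b i := fun i => by
    have := hw (Fin.castAdd 2 (Fin.castAdd r i))
    simp only [hb]
    linarith
  have hτ0 : 0 < τ := by
    have h1 := pos_dot v hv _ ha j0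
    rw [key j0, if_pos hj0, add_zero] at h1
    exact h1
  refine ⟨fun i => (1 + b i) / τ, fun i => div_pos (ha i) hτ0, fun j hj => ?_, fun j => ?_⟩
  · have h1 : ∑ i, (1 + b i) / τ * (v j i : ℝ) = (∑ i, (1 + b i) * (v j i : ℝ)) / τ := by
      rw [Finset.sum_div]
      exact Finset.sum_congr rfl fun i _ => by ring
    rw [h1, key j, if_pos hj, add_zero, div_self hτ0.ne']
  · have h1 : ∑ i, (1 + b i) / τ * (v j i : ℝ) = (∑ i, (1 + b i) * (v j i : ℝ)) / τ := by
      rw [Finset.sum_div]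
      exact Finset.sum_congr rfl fun i _ => by ring
    rw [h1, key j, one_le_div hτ0]
    have : 0 ≤ if j ∈ D then 0 else p j := by
      split_ifs
      · exact le_rfl
      · exact hw _
    linarith

/-- the choice of `k` -/
lemma exists_k (v : Fin r → Fin N → ℕ) (L : ℕ) : ∃ k : ℕ, ∀ D : Finset (Fin r), Alive v D →
    ∃ a : Fin N → ℝ, (∀ i, 0 < a i) ∧ (∀ j ∈ D, ∑ i, a i * (v j i : ℝ) = 1) ∧
      (∀ j, 1 ≤ ∑ i, a i * (v j i : ℝ)) ∧ ∀ i, (L : ℝ) < k * a i := by
  classical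
  have h : ∀ D : Finset (Fin r), ∃ k : ℕ, Alive v D →
      ∃ a : Fin N → ℝ, (∀ i, 0 < a i) ∧ (∀ j ∈ D, ∑ i, a i * (v j i : ℝ) = 1) ∧
        (∀ j, 1 ≤ ∑ i, a i * (v j i : ℝ)) ∧ ∀ i, (L : ℝ) < k * a i := by
    intro D
    by_cases hA : Alive v D
    · obtain ⟨a, h1, h2, h3⟩ := hA
      have h4 : ∀ i, ∃ k : ℕ, (L : ℝ) < k * a i := fun i => by
        obtain ⟨k, hk⟩ := exists_nat_gt ((L : ℝ) / a i)
        exact ⟨k, by rwa [div_lt_iff₀ (h1 i)] at hk⟩
      choose κ hκ using h4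
      refine ⟨∑ i, κ i, fun _ => ⟨a, h1, h2, h3, fun i => lt_of_lt_of_le (hκ i) ?_⟩⟩
      refine mul_le_mul_of_nonneg_right ?_ (h1 i).le
      exact_mod_cast Finset.single_le_sum (f := κ) (fun _ _ => Nat.zero_le _) (Finset.mem_univ i)
    · exact ⟨0, fun h => absurd h hA⟩
  choose κ hκ using h
  refine ⟨∑ D, κ D, fun D hD => ?_⟩
  obtain ⟨a, h1, h2, h3, h4⟩ := hκ D hD
  refine ⟨a, h1, h2, h3, fun i => lt_of_lt_of_le (h4 i) ?_⟩
  refine mul_le_mul_of_nonneg_right ?_ (h1 i).le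
  exact_mod_cast Finset.single_le_sum (f := κ) (fun _ _ => Nat.zero_le _) (Finset.mem_univ D)

/-- The terms of the third kind: the set of the negative indices is dead. -/
lemma dead_of (v : Fin r → Fin N → ℕ) (hv : ∀ j, v j ≠ 0) (L k : ℕ)
    (hk : ∀ D : Finset (Fin r), Alive v D →
      ∃ a : Fin N → ℝ, (∀ i, 0 < a i) ∧ (∀ j ∈ D, ∑ i, a i * (v j i : ℝ) = 1) ∧
        (∀ j, 1 ≤ ∑ i, a i * (v j i : ℝ)) ∧ ∀ i, (L : ℝ) < k * a i)
    (δ : Fin N → ℤ) (hδ : ∀ i, δ i ≤ 0) (hδk : (k : ℤ) ≤ -∑ i, δ i) (hN : 0 < N)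
    (D : Finset (Fin r)) (x : Fin r → ℝ) (hx : ∀ j, j ∉ D → 0 ≤ x j)
    (hx1 : ∑ j, x j = -(L : ℝ)) (hx2 : ∀ i, ∑ j, x j * (v j i : ℝ) ≤ (δ i : ℝ)) : Dead v D := by
  rcases alive_or_dead v hv D with hA | hD
  swap
  · exact hD
  exfalso
  obtain ⟨a, ha, haD, ha1, haL⟩ := hk D hA
  have h1 : ∑ j, x j ≤ ∑ j, x j * ∑ i, a i * (v j i : ℝ) := by
    refine Finset.sum_le_sum fun j _ => ?_
    by_cases hj : j ∈ D
    · rw [haD j hj, mul_one]
    · exact le_mul_of_one_le_right (hx j hj) (ha1 j)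
  have h2 : ∑ j, x j * ∑ i, a i * (v j i : ℝ) = ∑ i, a i * ∑ j, x j * (v j i : ℝ) := by
    simp only [Finset.mul_sum]
    rw [Finset.sum_comm]
    exact Finset.sum_congr rfl fun i _ => Finset.sum_congr rfl fun j _ => by ring
  have h3 : ∑ i, a i * ∑ j, x j * (v j i : ℝ) ≤ ∑ i, a i * (δ i : ℝ) :=
    Finset.sum_le_sum fun i _ => mul_le_mul_of_nonneg_left (hx2 i) (ha i).le
  obtain ⟨i0, -, hi0⟩ := Finset.exists_min_image (Finset.univ : Finset (Fin N)) a
    ⟨⟨0, hN⟩, Finset.mem_univ _⟩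
  have h4 : ∑ i, a i * (δ i : ℝ) ≤ ∑ i, a i0 * (δ i : ℝ) := by
    refine Finset.sum_le_sum fun i _ => ?_
    refine mul_le_mul_of_nonpos_right (hi0 i (Finset.mem_univ _)) ?_
    exact_mod_cast hδ i
  rw [← Finset.mul_sum] at h4
  have h5 : (∑ i, (δ i : ℝ)) ≤ -(k : ℝ) := by
    have h6 : ∑ i, δ i ≤ -(k : ℤ) := by omega
    exact_mod_cast h6
  have h7 : a i0 * ∑ i, (δ i : ℝ) ≤ a i0 * (-(k : ℝ)) := mul_le_mul_of_nonneg_left h5 (ha i0).le
  have h8 := haL i0
  rw [hx1] at h1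
  nlinarith

/-- a dead set gives an element of the ideal -/
lemma kil0_of_dead (v : Fin r → Fin N → ℕ) (θ : Fin r → ℝ) (D : Finset (Fin r))
    (hD : Dead v D) :
    open scoped Classical in
    Kil0 v θ True (fun j => if j ∈ D then -1 else 0) := by
  classical
  obtain ⟨g, hg0, hg1, hg2, i0, hg3⟩ := hD
  -- the size of `g`
  set G : ℝ := 1 + ∑ j, |g j| with hG
  have hG0 : 0 < G := by
    have : 0 ≤ ∑ j, |g j| := Finset.sum_nonneg fun j _ => abs_nonneg _
    linarith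
  have hgG : ∀ j, -G ≤ g j := by
    intro j
    have h1 : |g j| ≤ ∑ j, |g j| :=
      Finset.single_le_sum (f := fun j => |g j|) (fun _ _ => abs_nonneg _) (Finset.mem_univ j)
    have h2 := neg_abs_le (g j)
    linarith
  refine Or.inr ⟨trivial, fun j => g j / G - ((if j ∈ D then -1 else 0 : ℤ) : ℝ), fun j => ?_,
    ?_, fun i => ?_, i0, ?_⟩
  · beta_reduce
    split_ifs with hj
    · have h1 : -1 ≤ g j / G := by
        rw [le_div_iff₀ hG0]
        have := hgG j
        linarith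
      push_cast
      linarith
    · have h1 : 0 ≤ g j / G := div_nonneg (hg0 j hj) hG0.le
      push_cast
      linarith
  · have h1 : ∀ j, (((if j ∈ D then -1 else 0 : ℤ) : ℝ) +
        (g j / G - ((if j ∈ D then -1 else 0 : ℤ) : ℝ))) = g j / G := fun j => by ring
    rw [Finset.sum_congr rfl fun j _ => h1 j, ← Finset.sum_div, hg1, zero_div]
  · have h1 : ∀ j, (((if j ∈ D then -1 else 0 : ℤ) : ℝ) +
        (g j / G - ((if j ∈ D then -1 else 0 : ℤ) : ℝ))) * (v j i : ℝ) =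
        g j * (v j i : ℝ) / G := fun j => by ring
    rw [Finset.sum_congr rfl fun j _ => h1 j, ← Finset.sum_div]
    exact div_nonpos_of_nonpos_of_nonneg (hg2 i) hG0.le
  · have h1 : ∀ j, (((if j ∈ D then -1 else 0 : ℤ) : ℝ) +
        (g j / G - ((if j ∈ D then -1 else 0 : ℤ) : ℝ))) * (v j i0 : ℝ) =
        g j * (v j i0 : ℝ) / G := fun j => by ring
    rw [Finset.sum_congr rfl fun j _ => h1 j, ← Finset.sum_div]
    exact div_neg_of_neg_of_pos hg3 hG0

lemma gf_sign (M : ℕ) (c : Fin r → ℤ) :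
    open scoped Classical in
    gf M c = gf M (fun j => if j ∈ Finset.univ.filter (fun j => c j < 0) then -1 else 0) := by
  classical
  unfold gf
  refine Finset.prod_congr rfl fun j _ => ?_
  by_cases hj : c j < 0
  · rw [if_pos hj, if_pos]
    beta_reduce
    rw [if_pos (by simpa using hj)]
    norm_num
  · rw [if_neg hj, if_neg]
    beta_reduce
    rw [if_neg (by simpa using hj)]
    norm_num

theorem v2ex : TaskV2EX := by
  classical
  intro r N v K hr hv
  obtain ⟨kk, hkk⟩ := exists_k v K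
  have hN : 0 < N := by
    rcases Nat.eq_zero_or_pos N with rfl | h
    · exact absurd (funext fun i => i.elim0) (hv ⟨0, Nat.pos_of_ne_zero hr⟩)
    · exact h
  refine ⟨kk, fun A B θ hθ hA hRel => ?_⟩
  obtain ⟨L, n, t, δ, c, m, P, hT, hrel⟩ := hRel
  have ht : ∀ k, t k = 0 ∨ t k = 1 := fun k => by
    rcases hT k with h | h | h
    · exact Or.inr h.1
    · exact Or.inl h.1
    · exact Or.inl h.1
  obtain ⟨μ0, hμ0, hmax⟩ := Finset.exists_max_image A.support
    (fun μ => ∑ j, (μ j : ℝ) * θ j) (by rwa [support_nonempty])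
  set M : ℕ := ∑ j, μ0 j with hMdef
  have hM : ∀ j, μ0 j ≤ M := fun j =>
    Finset.single_le_sum (f := fun j => μ0 j) (fun _ _ => Nat.zero_le _) (Finset.mem_univ j)
  set σ : MvPolynomial (Fin r) ℂ := ∑ j, X j with hσ
  set PA : MvPolynomial (Option (Fin N)) (MvPolynomial (Fin r) ℂ) := C A with hPA
  -- the polynomial identity
  set F0 : MvPolynomial (Fin r) ℂ :=
    ∑ ν ∈ (Sy PA).filter (Cond v 0 0 0 (0 : Fin N → ℤ) μ0), Tm v PA 0 0 M μ0 ν with hF0
  set F1 : MvPolynomial (Fin r) ℂ :=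
    ∑ k, ∑ ν ∈ (Sy (P k)).filter (Cond v (c k) (m k) (t k) (δ k) μ0),
      Tm v (P k) (t k) (δ k) M μ0 ν with hF1
  have hid : Polynomial.aeval σ B * F0 = F1 := by
    refine funext_set (fun _ => (Nat.cast : ℕ → ℂ) '' Set.Ici L)
      (fun _ => (Set.Ici_infinite L).image Nat.cast_injective.injOn) fun x hx => ?_
    choose u hu1 hu using fun j => hx j (Set.mem_univ j)
    obtain rfl : x = fun j => (u j : ℂ) := funext fun j => (hu j).symm
    have hL : L ≤ ∑ j, u j := by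
      have h1 : L ≤ u ⟨0, Nat.pos_of_ne_zero hr⟩ := hu1 _
      exact h1.trans (Finset.single_le_sum (f := fun j => u j) (fun _ _ => Nat.zero_le _)
        (Finset.mem_univ _))
    have hn0 : ((((∑ j, u j).factorial : ℕ) : ℂ)) ≠ 0 := by exact_mod_cast Nat.factorial_ne_zero _
    have h1 := congrArg (fun p => (∏ j, ((u j + M).factorial : ℂ)) * coeff (ym u + μ0) p)
      (hrel (∑ j, u j) hL (Ex v u))
    beta_reduce at h1
    rw [coeff_sum, Finset.mul_sum,
      Finset.sum_congr rfl fun k _ => term v (P k) (c k) (m k) (t k) (ht k) (δ k) μ0 M hM u] at h1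
    have h2 := term v PA 0 0 0 (Or.inl rfl) (0 : Fin N → ℤ) μ0 M hM u
    have h3 : low (0 : Fin N → ℤ) (PA • sh 0 (brk (spa v (X : Fin r → MvPolynomial (Fin r) ℂ))
        (monomial 0 1) 0)) (∑ j, u j) (Ex v u) =
        A * coeff (Ex v u) (spa v (X : Fin r → MvPolynomial (Fin r) ℂ) ^ (∑ j, u j)) := by
      unfold low
      have e0 : tr (0 : Fin N → ℤ) (Ex v u) = Ex v u := by
        ext i
        rw [tr_apply]
        simp
      rw [if_pos (by intro i; simp), e0]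
      have e1 : (PA • sh 0 (brk (spa v (X : Fin r → MvPolynomial (Fin r) ℂ))
        (monomial 0 1) 0)) (∑ j, u j) (Ex v u) = eval (ev (∑ j, u j) (Ex v u)) PA *
          coeff (Ex v u) (monomial 0 1 * (((∑ j, u j + 0).descFactorial 0 : ℕ) :
            MvPolynomial (Fin N) (MvPolynomial (Fin r) ℂ)) *
            spa v (X : Fin r → MvPolynomial (Fin r) ℂ) ^ (∑ j, u j + 0 - 0)) := rfl
      rw [e1, hPA, eval_C]
      simp
    rw [h3] at h2
    have h4 : (∏ j, ((u j + M).factorial : ℂ)) * coeff (ym u + μ0)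
        (algebraMap ℂ (MvPolynomial (Fin r) ℂ) (B.eval ((∑ j, u j : ℕ) : ℂ)) * A *
          coeff (Ex v u) (spa v (X : Fin r → MvPolynomial (Fin r) ℂ) ^ (∑ j, u j))) =
        B.eval ((∑ j, u j : ℕ) : ℂ) * ((∏ j, ((u j + M).factorial : ℂ)) * coeff (ym u + μ0)
        (A * coeff (Ex v u) (spa v (X : Fin r → MvPolynomial (Fin r) ℂ) ^ (∑ j, u j)))) := by
      rw [algebraMap_eq, mul_assoc (C _), coeff_C_mul]
      ring
    rw [h4, h2] at h1
    have hσe : eval (fun j => (u j : ℂ)) σ = ((∑ m, u m : ℕ) : ℂ) := by simp [hσ]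
    refine mul_left_cancel₀ hn0 ?_
    rw [map_mul, eval_paeval, hσe, hF0, hF1]
    simp only [map_sum]
    rw [mul_left_comm, h1, Finset.mul_sum]
  -- membership
  have mT : ∀ (P : MvPolynomial (Option (Fin N)) (MvPolynomial (Fin r) ℂ)) (t : ℕ)
      (δ : Fin N → ℤ) (ν : Fin r →₀ ℕ), Tm v P t δ M μ0 ν =
      ((∏ j, fq M j (cv μ0 ν j)) * Kr v P t δ ν) * ((∏ i ∈ Bd δ, el v i) * gf M (cv μ0 ν)) := by
    intro P t δ ν
    unfold Tm
    rw [ff_eq M (cv μ0 ν)]
    ring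
  have hsum : ∀ (k : Fin n) (ν : Fin r →₀ ℕ), Cond v (c k) (m k) (t k) (δ k) μ0 ν →
      ∀ l : Fin r → ℝ, (∀ i, ∑ j, l j * (v j i : ℝ) ≤ (c k i : ℝ)) → ∀ i,
      ∑ j, ((cv μ0 ν j : ℝ) + l j) * (v j i : ℝ) ≤ (δ k i : ℝ) := by
    intro k ν hν l hl2 i
    have h2 : ((∑ j, cv μ0 ν j * (v j i : ℤ) : ℤ) : ℝ) = ((δ k i - (c k i : ℤ) : ℤ) : ℝ) := by
      rw [hν.2 i]
    push_cast at h2
    simp only [add_mul]
    rw [Finset.sum_add_distrib, h2]
    have := hl2 i
    linarith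
  have mF1 : F1 ∈ II v θ True M := by
    refine Ideal.sum_mem _ fun k _ => Ideal.sum_mem _ fun ν hν => ?_
    rw [mT]
    have hC := (Finset.mem_filter.1 hν).2
    obtain ⟨hν1, hν2⟩ := hC
    rcases hT k with ⟨ht1, l, hl0, hl1, hl2⟩ | ⟨ht0, hle, hne, l, hl0, hl1, hl2⟩ |
      ⟨ht0, hle, hk, hLm, l, hl0, hl1, hl2⟩
    · refine Ideal.mul_mem_left _ _ (Ideal.mem_sup_left (Ideal.subset_span ?_))
      refine ⟨cv μ0 ν, Bd (δ k), ⟨l, hl0, ?_, fun i hi => ?_⟩, rfl⟩
      · rw [Finset.sum_add_distrib, hl1]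
        have : ((∑ j, cv μ0 ν j : ℤ) : ℝ) = (((t k : ℕ) : ℤ) - (m k : ℤ) : ℤ) := by rw [hν1]
        rw [ht1] at this
        push_cast at this
        rw [this]
        ring
      · have h1 : ¬ 0 < δ k i := fun h => hi (Finset.mem_filter.2 ⟨Finset.mem_univ _, h⟩)
        refine (hsum k ν ⟨hν1, hν2⟩ l hl2 i).trans ?_
        exact_mod_cast not_lt.1 h1
    · refine Ideal.mul_mem_left _ _ (Ideal.mul_mem_left _ _
        (Ideal.mem_sup_right (Ideal.subset_span ?_)))
      refine ⟨cv μ0 ν, Or.inr ⟨trivial, l, hl0, ?_, fun i => ?_, ?_⟩, rfl⟩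
      · rw [Finset.sum_add_distrib, hl1]
        have : ((∑ j, cv μ0 ν j : ℤ) : ℝ) = (((t k : ℕ) : ℤ) - (m k : ℤ) : ℤ) := by rw [hν1]
        rw [ht0] at this
        push_cast at this
        rw [this]
        ring
      · refine (hsum k ν ⟨hν1, hν2⟩ l hl2 i).trans ?_
        exact_mod_cast hle i
      · obtain ⟨i, hi⟩ := Function.ne_iff.1 hne
        refine ⟨i, lt_of_le_of_lt (hsum k ν ⟨hν1, hν2⟩ l hl2 i) ?_⟩
        exact_mod_cast lt_of_le_of_ne (hle i) hi
    · refine Ideal.mul_mem_left _ _ (Ideal.mul_mem_left _ _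
        (Ideal.mem_sup_right (Ideal.subset_span ?_)))
      rw [gf_sign M (cv μ0 ν)]
      refine ⟨_, kil0_of_dead v θ _ ?_, rfl⟩
      refine dead_of v hv K kk hkk (δ k) hle hk hN _ (fun j => (cv μ0 ν j : ℝ) + l j)
        (fun j hj => ?_) ?_ (hsum k ν ⟨hν1, hν2⟩ l hl2)
      · have h1 : ¬ cv μ0 ν j < 0 := fun h => hj (Finset.mem_filter.2 ⟨Finset.mem_univ _, h⟩)
        have h2 : (0 : ℝ) ≤ (cv μ0 ν j : ℝ) := by exact_mod_cast not_lt.1 h1
        exact add_nonneg h2 (hl0 j)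
      · rw [Finset.sum_add_distrib, hl1]
        have : ((∑ j, cv μ0 ν j : ℤ) : ℝ) = (((t k : ℕ) : ℤ) - (m k : ℤ) : ℤ) := by rw [hν1]
        rw [ht0] at this
        push_cast at this
        rw [this, Nat.cast_sub hLm]
        ring
  -- the main term
  set κ : ℂ := coeff μ0 A with hκ
  have hκ0 : κ ≠ 0 := mem_support_iff.1 hμ0
  have hSy : ∀ ν, ν ∈ Sy PA ↔ ν ∈ A.support := by
    intro ν
    unfold Sy
    rw [Finset.mem_biUnion]
    constructor
    · rintro ⟨g, hg, hν⟩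
      rw [hPA, coeff_C] at hν
      split_ifs at hν with h
      · exact hν
      · simp at hν
    · intro hν
      refine ⟨0, ?_, ?_⟩
      · rw [mem_support_iff, hPA, coeff_C, if_pos rfl]
        exact hA
      · rw [hPA, coeff_C, if_pos rfl]
        exact hν
  have hPy : Py μ0 PA = C κ := by
    unfold Py
    have h1 : PA.support = {0} := by
      ext g
      rw [mem_support_iff, hPA, coeff_C, Finset.mem_singleton]
      constructor
      · intro h
        by_contra hne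
        exact h (if_neg fun h' => hne h'.symm)
      · rintro rfl
        rw [if_pos rfl]
        exact hA
    rw [h1, Finset.sum_singleton, hPA, coeff_C, if_pos rfl]
    rfl
  have hcv0 : cv μ0 μ0 = 0 := by
    funext j
    simp [cv]
  have hmem : μ0 ∈ (Sy PA).filter (Cond v 0 0 0 (0 : Fin N → ℤ) μ0) := by
    rw [Finset.mem_filter, hSy]
    refine ⟨hμ0, ?_, fun i => ?_⟩
    · rw [hcv0]; simp
    · rw [hcv0]; simp
  have hT0 : Tm v PA 0 0 M μ0 μ0 = C κ * ∏ j, dm M j := by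
    unfold Tm Kr
    have hB0 : Bd (0 : Fin N → ℤ) = ∅ := by
      unfold Bd
      rw [Finset.filter_false_of_mem]
      intro i _
      simp
    rw [hB0, hPy]
    simp only [Finset.prod_empty, one_mul, if_true, mul_one]
    rw [ff_eq M (cv μ0 μ0), hcv0]
    have h1 : gf M (0 : Fin r → ℤ) = 1 := by
      unfold gf
      exact Finset.prod_eq_one fun j _ => if_neg (lt_irrefl 0)
    rw [h1, one_mul, algHom_C, algebraMap_eq]
    have h2 : ∏ j, fq M j ((0 : Fin r → ℤ) j) = ∏ j, dm M j :=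
      Finset.prod_congr rfl fun j _ => fq_zero' M j
    rw [h2]
    ring
  have mrest : ∑ ν ∈ ((Sy PA).filter (Cond v 0 0 0 (0 : Fin N → ℤ) μ0)).erase μ0,
      Tm v PA 0 0 M μ0 ν ∈ II v θ True M := by
    refine Ideal.sum_mem _ fun ν hν => ?_
    rw [mT]
    refine Ideal.mul_mem_left _ _ (Ideal.mul_mem_left _ _
      (Ideal.mem_sup_right (Ideal.subset_span ?_)))
    obtain ⟨hne, hν'⟩ := Finset.mem_erase.1 hν
    obtain ⟨hνS, hν1, hν2⟩ := Finset.mem_filter.1 hν'
    refine ⟨cv μ0 ν, Or.inl ⟨by simpa using hν1, fun i => by simpa using hν2 i, ?_⟩, rfl⟩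
    have h1 := hmax ν ((hSy ν).1 hνS)
    have h2 : ∑ j, (cv μ0 ν j : ℝ) * θ j = ∑ j, (μ0 j : ℝ) * θ j - ∑ j, (ν j : ℝ) * θ j := by
      rw [← Finset.sum_sub_distrib]
      refine Finset.sum_congr rfl fun j _ => ?_
      unfold cv
      push_cast
      ring
    refine lt_of_le_of_ne (by rw [h2]; linarith) fun h => hne ?_
    have h3 := Fintype.linearIndependent_iff.1 hθ (fun j => ((cv μ0 ν j : ℤ) : ℚ)) (by
      rw [h]
      refine Finset.sum_congr rfl fun j _ => ?_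
      rw [Rat.smul_def]
      push_cast
      rfl)
    ext j
    have h4 : cv μ0 ν j = 0 := by exact_mod_cast h3 j
    unfold cv at h4
    omega
  apply relV_of_mem v θ True M
  have h1 : F0 = C κ * ∏ j, dm M j +
      ∑ ν ∈ ((Sy PA).filter (Cond v 0 0 0 (0 : Fin N → ℤ) μ0)).erase μ0,
        Tm v PA 0 0 M μ0 ν := by
    rw [hF0, ← Finset.add_sum_erase _ _ hmem, hT0]
  have h2 : Polynomial.aeval σ B * ∏ j, dm M j = C κ⁻¹ * (F1 - Polynomial.aeval σ B *
      ∑ ν ∈ ((Sy PA).filter (Cond v 0 0 0 (0 : Fin N → ℤ) μ0)).erase μ0,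
        Tm v PA 0 0 M μ0 ν) := by
    rw [← hid, h1]
    have h3 : (C κ⁻¹ : MvPolynomial (Fin r) ℂ) * C κ = 1 := by
      rw [← C_mul, inv_mul_cancel₀ hκ0, C_1]
    linear_combination (-(Polynomial.aeval σ B * ∏ j, dm M j)) * h3
  rw [h2]
  exact Ideal.mul_mem_left _ _ (Ideal.sub_mem _ mF1 (Ideal.mul_mem_left _ _ mrest))

end Pool.Agent.Y497.CF
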